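import Mathlib.FieldTheory.Finite.Trace
import Mathlib.Tactic

/-! Quadratic forms on a finite field of characteristic two: two trace-orthogonal multipliers
with different cubes already generate every coefficient of `x ^ 3`. -/

set_option autoImplicit false

namespace Pool.Agent.Q315.AffInv

open Finset

set_option linter.unusedSectionVars false

variable {F : Type*} [Field F] [Finite F] [Algebra (ZMod 2) F]

instance charTwo : CharP F 2 := charP_of_injective_algebraMap' (ZMod 2) 2

/-- squaring does not change the absolute trace -/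
theorem trace_sq (x : F) :
    Algebra.trace (ZMod 2) F (x ^ 2) = Algebra.trace (ZMod 2) F x := by
  have h := Algebra.trace_eq_of_algEquiv (FiniteField.frobeniusAlgEquivOfAlgebraic (ZMod 2) F) x
  rw [← h]
  congr 1

theorem exists_sqrt (v : F) : ∃ u : F, u ^ 2 = v := by
  have hinj : Function.Injective (fun u : F => u ^ 2) := by
    intro a b hab
    have : (a - b) ^ 2 = 0 := by
      have h2 : (2 : F) = 0 := by
        have := CharP.cast_eq_zero F 2
        simpa using this
      have hab' : a ^ 2 = b ^ 2 := hab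
      calc (a - b) ^ 2 = a ^ 2 - 2 * a * b + b ^ 2 := by ring
        _ = 2 * (b ^ 2 - a * b) := by rw [hab']; ring
        _ = 0 := by rw [h2]; ring
    have := pow_eq_zero_iff (two_ne_zero) |>.1 this
    exact sub_eq_zero.1 this
  exact (Finite.injective_iff_surjective.1 hinj) v

theorem trace_nondeg {w : F} (h : ∀ v : F, Algebra.trace (ZMod 2) F (w * v) = 0) : w = 0 := by
  have htr := (traceForm_nondegenerate (ZMod 2) F).1 w
  simp_rw [Algebra.traceForm_apply] at htr
  exact htr h

theorem exists_trace_repr (f : F →ₗ[ZMod 2] ZMod 2) :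
    ∃ w : F, ∀ x, f x = Algebra.trace (ZMod 2) F (w * x) := by
  refine ⟨((Algebra.traceForm (ZMod 2) F).toDual (traceForm_nondegenerate _ _)).symm f, ?_⟩
  intro x
  have := LinearMap.BilinForm.apply_toDual_symm_apply
    (B := Algebra.traceForm (ZMod 2) F) (hB := traceForm_nondegenerate _ _) f x
  rw [← this, Algebra.traceForm_apply]

/-- the `x ^ 3` coefficient of `Tr (a x) * Tr (b x)` as a linear map in `b` -/
noncomputable def phiL (a : F) : F →ₗ[ZMod 2] F where
  toFun b := a * b ^ 2 + a ^ 2 * b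
  map_add' x y := by
    rw [add_pow_char]
    ring
  map_smul' c x := by
    simp only [RingHom.id_apply, Algebra.smul_def, mul_pow]
    have hc : (algebraMap (ZMod 2) F c) ^ 2 = algebraMap (ZMod 2) F c := by
      rw [← map_pow]
      congr 1
      revert c
      decide
    rw [hc]
    ring

theorem phiL_apply (a b : F) : phiL a b = a * b ^ 2 + a ^ 2 * b := rfl

theorem cube_eq {w a : F} (hw : w ≠ 0) (ha : a ≠ 0)
    (h : ∀ b, Algebra.trace (ZMod 2) F (w * (phiL a b)) = 0) : w * a ^ 3 = 1 := by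
  have key : ∀ u : F, Algebra.trace (ZMod 2) F ((w * a ^ 3 + w ^ 2 * a ^ 6) * u ^ 2) = 0 := by
    intro u
    have h1 := h (a * u)
    rw [phiL_apply] at h1
    have h2 : w * (a * (a * u) ^ 2 + a ^ 2 * (a * u)) = w * a ^ 3 * u ^ 2 + w * a ^ 3 * u := by
      ring
    rw [h2, map_add, ← trace_sq (w * a ^ 3 * u), ← map_add] at h1
    rw [← h1]
    congr 1
    ring
  have h3 : w * a ^ 3 + w ^ 2 * a ^ 6 = 0 := by
    apply trace_nondeg
    intro v
    obtain ⟨u, rfl⟩ := exists_sqrt v
    exact key u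
  have h4 : w * a ^ 3 * (1 + w * a ^ 3) = 0 := by
    rw [← h3]; ring
  rcases mul_eq_zero.1 h4 with h5 | h5
  · exfalso
    rcases mul_eq_zero.1 h5 with h6 | h6
    · exact hw h6
    · exact ha (pow_eq_zero_iff (by norm_num) |>.1 h6)
  · have := eq_neg_of_add_eq_zero_right h5
    rw [this, CharTwo.neg_eq]

theorem surj {a a' : F} (ha : a ≠ 0) (ha' : a' ≠ 0) (hne : a ^ 3 ≠ a' ^ 3) :
    ∃ b b' : F, (a * b ^ 2 + a ^ 2 * b) + (a' * b' ^ 2 + a' ^ 2 * b') = 1 := by
  by_contra hcon
  push Not at hcon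
  have hlt : LinearMap.range (phiL a) ⊔ LinearMap.range (phiL a') < ⊤ := by
    rw [lt_top_iff_ne_top]
    intro htop
    have h1 : (1 : F) ∈ LinearMap.range (phiL a) ⊔ LinearMap.range (phiL a') := by
      rw [htop]; trivial
    obtain ⟨y, ⟨b, rfl⟩, z, ⟨b', rfl⟩, hyz⟩ := Submodule.mem_sup.1 h1
    exact hcon b b' hyz
  obtain ⟨f, hf0, hf⟩ := Submodule.exists_le_ker_of_lt_top _ hlt
  obtain ⟨w, hw⟩ := exists_trace_repr f
  have hw0 : w ≠ 0 := by
    rintro rfl
    apply hf0
    ext x
    rw [hw]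
    simp
  have h1 : w * a ^ 3 = 1 := by
    apply cube_eq hw0 ha
    intro b
    rw [← hw]
    exact hf (Submodule.mem_sup_left ⟨b, rfl⟩)
  have h2 : w * a' ^ 3 = 1 := by
    apply cube_eq hw0 ha'
    intro b
    rw [← hw]
    exact hf (Submodule.mem_sup_right ⟨b, rfl⟩)
  exact hne (mul_left_cancel₀ hw0 (h1.trans h2.symm))

/-- a big subspace contains two elements with different cubes -/
theorem two_cubes (V : Submodule (ZMod 2) F) (hV : 3 ≤ Module.finrank (ZMod 2) V) :
    ∃ a ∈ V, ∃ a' ∈ V, a ≠ 0 ∧ a' ≠ 0 ∧ a ^ 3 ≠ a' ^ 3 := by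
  classical
  by_contra hcon
  push Not at hcon
  have hpos : V ≠ ⊥ := by
    rintro rfl
    simp at hV
  obtain ⟨a, haV, ha0⟩ := Submodule.exists_mem_ne_zero_of_ne_bot hpos
  have hsub : (V : Set F) ⊆ (insert 0 (Polynomial.nthRoots 3 (a ^ 3)).toFinset : Finset F) := by
    intro x hx
    by_cases hx0 : x = 0
    · simp [hx0]
    · have h3 := hcon a haV x hx ha0 hx0
      have : x ∈ (Polynomial.nthRoots 3 (a ^ 3)).toFinset := by
        rw [Multiset.mem_toFinset, Polynomial.mem_nthRoots (by norm_num)]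
        exact h3.symm
      rw [Finset.coe_insert]
      exact Or.inr this
  have hc : Nat.card V ≤ 4 := by
    have h1 := Nat.card_mono (Finset.finite_toSet _) hsub
    have h2 : Nat.card ((insert 0 (Polynomial.nthRoots 3 (a ^ 3)).toFinset : Finset F) : Set F) ≤ 4 := by
      rw [Nat.card_coe_set_eq, Set.ncard_coe_finset]
      refine (Finset.card_insert_le _ _).trans ?_
      have := Multiset.toFinset_card_le (Polynomial.nthRoots 3 (a ^ 3))
      have h3 := Polynomial.card_nthRoots 3 (a ^ 3)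
      omega
    exact h1.trans h2
  have h8 : Nat.card V = 2 ^ Module.finrank (ZMod 2) V := by
    rw [Module.natCard_eq_pow_finrank (K := ZMod 2)]
    simp
  have : 2 ^ 3 ≤ 2 ^ Module.finrank (ZMod 2) V := Nat.pow_le_pow_right (by norm_num) hV
  omega

theorem exists_orth {k : ℕ} (hk : k + 3 ≤ Module.finrank (ZMod 2) F) (α : Fin k → F) :
    ∃ a a' : F, a ≠ 0 ∧ a' ≠ 0 ∧ a ^ 3 ≠ a' ^ 3 ∧
      (∀ i, Algebra.trace (ZMod 2) F (a * α i) = 0) ∧
      (∀ i, Algebra.trace (ZMod 2) F (a' * α i) = 0) := by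
  let T : F →ₗ[ZMod 2] (Fin k → ZMod 2) :=
    LinearMap.pi (fun i => (Algebra.trace (ZMod 2) F).comp (LinearMap.mulRight (ZMod 2) (α i)))
  have h1 := LinearMap.finrank_range_add_finrank_ker T
  have h2 : Module.finrank (ZMod 2) (LinearMap.range T) ≤ k := by
    refine (Submodule.finrank_le _).trans ?_
    simp
  have h3 : 3 ≤ Module.finrank (ZMod 2) (LinearMap.ker T) := by omega
  obtain ⟨a, ha, a', ha', h0, h0', hne⟩ := two_cubes _ h3
  refine ⟨a, a', h0, h0', hne, fun i => ?_, fun i => ?_⟩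
  · have := congrFun (LinearMap.mem_ker.1 ha) i
    simpa [T] using this
  · have := congrFun (LinearMap.mem_ker.1 ha') i
    simpa [T] using this

end Pool.Agent.Q315.AffInv
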