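import Pool.Agent.Q315.AffInv

set_option autoImplicit false

namespace Pool.Agent.Q315.AffInv

open Finset

set_option linter.unusedSectionVars false

/-- exponents of binary weight at most two, without the orbit of `3` -/
def DD (t : ℕ) : Finset ℕ :=
  insert 0 ((range t).image (fun i => 2 ^ i)) ∪
    (((range t ×ˢ range t).filter
      (fun p => p.1 ≠ p.2 ∧ (p.1 + 1) % t ≠ p.2 ∧ (p.2 + 1) % t ≠ p.1)).image
      (fun p => 2 ^ p.1 + 2 ^ p.2))

theorem mem_DD {t d : ℕ} : d ∈ DD t ↔ d = 0 ∨ (∃ i < t, d = 2 ^ i) ∨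
    (∃ i < t, ∃ l < t, i ≠ l ∧ (i + 1) % t ≠ l ∧ (l + 1) % t ≠ i ∧ d = 2 ^ i + 2 ^ l) := by
  unfold DD
  rw [Finset.mem_union, Finset.mem_insert, Finset.mem_image, Finset.mem_image]
  constructor
  · rintro ((h | ⟨i, hi, rfl⟩) | ⟨⟨i, l⟩, hp, rfl⟩)
    · exact Or.inl h
    · exact Or.inr (Or.inl ⟨i, Finset.mem_range.1 hi, rfl⟩)
    · rw [Finset.mem_filter, Finset.mem_product] at hp
      obtain ⟨⟨h1, h2⟩, h3, h4, h5⟩ := hp
      exact Or.inr (Or.inr ⟨i, Finset.mem_range.1 h1, l, Finset.mem_range.1 h2, h3, h4, h5, rfl⟩)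
  · rintro (h | ⟨i, hi, rfl⟩ | ⟨i, hi, l, hl, h1, h2, h3, rfl⟩)
    · exact Or.inl (Or.inl h)
    · exact Or.inl (Or.inr ⟨i, Finset.mem_range.2 hi, rfl⟩)
    · refine Or.inr ⟨(i, l), ?_, rfl⟩
      rw [Finset.mem_filter, Finset.mem_product]
      exact ⟨⟨Finset.mem_range.2 hi, Finset.mem_range.2 hl⟩, h1, h2, h3⟩

theorem two_pow_add_lt {t i l : ℕ} (hi : i < t) (hl : l < t) (h : i ≠ l) : 2 ^ i + 2 ^ l < 2 ^ t := by
  rcases Nat.lt_or_gt_of_ne h with h | h
  · have h1 : 2 ^ i < 2 ^ l := Nat.pow_lt_pow_right (by norm_num) h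
    have h2 : 2 ^ (l + 1) ≤ 2 ^ t := Nat.pow_le_pow_right (by norm_num) hl
    rw [pow_succ] at h2
    omega
  · have h1 : 2 ^ l < 2 ^ i := Nat.pow_lt_pow_right (by norm_num) h
    have h2 : 2 ^ (i + 1) ≤ 2 ^ t := Nat.pow_le_pow_right (by norm_num) hi
    rw [pow_succ] at h2
    omega

theorem digsum_pow (i : ℕ) : (Nat.digits 2 (2 ^ i)).sum = 1 := by
  have := Nat.digits_base_pow_mul (b := 2) (k := i) (m := 1) (by norm_num) (by norm_num)
  rw [mul_one] at this
  rw [this]
  simp

theorem digsum_pow_add {i l : ℕ} (h : i < l) : (Nat.digits 2 (2 ^ i + 2 ^ l)).sum = 2 := by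
  obtain ⟨m, rfl⟩ := Nat.exists_eq_add_of_lt h
  have h1 : 2 ^ i + 2 ^ (i + m + 1) = 2 ^ i * (1 + 2 * 2 ^ m) := by
    rw [pow_succ, pow_add]; ring
  rw [h1, Nat.digits_base_pow_mul (by norm_num) (by positivity)]
  have h2 : Nat.digits 2 (1 + 2 * 2 ^ m) = 1 :: Nat.digits 2 (2 ^ m) := by
    exact Nat.digits_add 2 (by norm_num) 1 (2 ^ m) (by norm_num) (Or.inr (by positivity))
  rw [List.sum_append, h2, List.sum_cons, digsum_pow]
  simp

theorem DD_lt {t d : ℕ} (hd : d ∈ DD t) : d < 2 ^ t ∧ (Nat.digits 2 d).sum ≤ 2 := by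
  rcases mem_DD.1 hd with rfl | ⟨i, hi, rfl⟩ | ⟨i, hi, l, hl, h1, h2, h3, rfl⟩
  · simp
  · exact ⟨Nat.pow_lt_pow_right (by norm_num) hi, by rw [digsum_pow]; norm_num⟩
  · refine ⟨two_pow_add_lt hi hl h1, ?_⟩
    rcases Nat.lt_or_gt_of_ne h1 with h | h
    · rw [digsum_pow_add h]
    · rw [add_comm, digsum_pow_add h]

theorem pow_add_pow_eq_three {i l : ℕ} (h : 2 ^ i + 2 ^ l = 3) : (i = 0 ∧ l = 1) ∨ (i = 1 ∧ l = 0) := by
  rcases i with _ | _ | i
  · rcases l with _ | _ | l
    · simp at h
    · simp
    · exfalso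
      have : 4 ≤ 2 ^ (l + 2) := by
        have := Nat.pow_le_pow_right (n := 2) (by norm_num) (show 2 ≤ l + 2 by omega)
        simpa using this
      simp only [pow_zero] at h
      have h' : l + 1 + 1 = l + 2 := rfl
      rw [h'] at h
      omega
  · rcases l with _ | _ | l
    · simp
    · simp at h
    · exfalso
      have : 4 ≤ 2 ^ (l + 2) := by
        have := Nat.pow_le_pow_right (n := 2) (by norm_num) (show 2 ≤ l + 2 by omega)
        simpa using this
      have h' : l + 1 + 1 = l + 2 := rfl
      rw [h'] at h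
      omega
  · exfalso
    have : 4 ≤ 2 ^ (i + 2) := by
      have := Nat.pow_le_pow_right (n := 2) (by norm_num) (show 2 ≤ i + 2 by omega)
      simpa using this
    have h2 : 1 ≤ 2 ^ l := Nat.one_le_two_pow
    have h' : i + 1 + 1 = i + 2 := rfl
    rw [h'] at h
    omega

theorem three_not_mem {t : ℕ} (ht : 3 ≤ t) : 3 ∉ DD t := by
  intro h
  rcases mem_DD.1 h with h | ⟨i, hi, h⟩ | ⟨i, hi, l, hl, h1, h2, h3, h⟩
  · omega
  · rcases i with _ | _ | i
    · simp at h
    · simp at h
    · have : 4 ≤ 2 ^ (i + 2) := by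
        have := Nat.pow_le_pow_right (n := 2) (by norm_num) (show 2 ≤ i + 2 by omega)
        simpa using this
      have h' : i + 1 + 1 = i + 2 := rfl
      rw [h'] at h
      omega
  · rcases pow_add_pow_eq_three h.symm with ⟨rfl, rfl⟩ | ⟨rfl, rfl⟩
    · apply h2
      rw [Nat.mod_eq_of_lt (by omega)]
    · apply h3
      rw [Nat.mod_eq_of_lt (by omega)]

theorem DD_double {t d : ℕ} (_ht : 3 ≤ t) (hd : d ∈ DD t) (h0 : d ≠ 0) :
    (2 * d - 1) % (2 ^ t - 1) + 1 ∈ DD t := by
  rcases mem_DD.1 hd with h | ⟨i, hi, rfl⟩ | ⟨i, hi, l, hl, h1, h2, h3, rfl⟩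
  · exact absurd h h0
  · -- a power of two
    apply mem_DD.2
    right; left
    by_cases hit : i + 1 < t
    · refine ⟨i + 1, hit, ?_⟩
      have h2 : 2 ^ (i + 1) < 2 ^ t := Nat.pow_lt_pow_right (by norm_num) hit
      have h3 : 1 ≤ 2 ^ i := Nat.one_le_two_pow
      rw [pow_succ] at h2 ⊢
      rw [Nat.mod_eq_of_lt (by omega)]
      omega
    · refine ⟨0, by omega, ?_⟩
      have : t = i + 1 := by omega
      subst this
      have h3 : 1 ≤ 2 ^ i := Nat.one_le_two_pow
      have : 2 * 2 ^ i - 1 = 2 ^ (i + 1) - 1 := by rw [pow_succ]; omega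
      rw [this, Nat.mod_self]
      simp
  · -- weight two; put the larger exponent last
    have main : ∀ i l : ℕ, i < l → l < t → (i + 1) % t ≠ l → (l + 1) % t ≠ i →
        (2 * (2 ^ i + 2 ^ l) - 1) % (2 ^ t - 1) + 1 ∈ DD t := by
      intro i l hil hl h2 h3
      apply mem_DD.2
      right; right
      have h4 : 1 ≤ 2 ^ i := Nat.one_le_two_pow
      by_cases hlt : l + 1 < t
      · refine ⟨i + 1, by omega, l + 1, hlt, by omega, ?_, ?_, ?_⟩
        · rw [Nat.mod_eq_of_lt (show i + 1 < t by omega)] at h2
          rw [Nat.mod_eq_of_lt (show i + 1 + 1 < t by omega)]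
          omega
        · by_cases hll : l + 1 + 1 < t
          · rw [Nat.mod_eq_of_lt hll]; omega
          · have : l + 1 + 1 = t := by omega
            rw [this, Nat.mod_self]; omega
        · have h5 := two_pow_add_lt (t := t) (i := i + 1) (l := l + 1) (by omega) (by omega) (by omega)
          rw [pow_succ, pow_succ] at h5 ⊢
          rw [Nat.mod_eq_of_lt (by omega)]
          omega
      · have hlt' : l + 1 = t := by omega
        have hi0 : i ≠ 0 := by
          rintro rfl
          apply h3
          rw [hlt', Nat.mod_self]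
        have hil' : i + 1 ≠ l := by
          rw [Nat.mod_eq_of_lt (show i + 1 < t by omega)] at h2
          exact h2
        refine ⟨0, by omega, i + 1, by omega, by omega, ?_, ?_, ?_⟩
        · rw [Nat.mod_eq_of_lt (show 0 + 1 < t by omega)]; omega
        · rw [Nat.mod_eq_of_lt (show i + 1 + 1 < t by omega)]; omega
        · have h6 : 2 ^ t = 2 * 2 ^ l := by rw [← hlt', pow_succ]; ring
          have h7 : 2 ^ (i + 1) < 2 ^ l := Nat.pow_lt_pow_right (by norm_num) (by omega)
          rw [pow_succ] at h7 ⊢
          have h8 : 2 * (2 ^ i + 2 ^ l) - 1 = (2 ^ i * 2) + (2 ^ t - 1) := by omega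
          rw [h8, Nat.add_mod_right, Nat.mod_eq_of_lt (by omega)]
          simp only [pow_zero]
          omega
    rcases Nat.lt_or_gt_of_ne h1 with h | h
    · exact main i l h hl h2 h3
    · rw [add_comm (2 ^ i) (2 ^ l)]
      exact main l i h hi h3 h2

theorem pow_add_eq_or {i l : ℕ} (h : i < l) : 2 ^ i + 2 ^ l = 2 ^ i ||| 2 ^ l := by
  have h1 : 2 ^ i < 2 ^ l := Nat.pow_lt_pow_right (by norm_num) h
  have := Nat.two_pow_add_eq_or_of_lt h1 1
  rw [mul_one] at this
  rw [add_comm, this, Nat.or_comm]

theorem testBit_two {i l m : ℕ} (h : i ≠ l) :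
    (2 ^ i + 2 ^ l).testBit m = (decide (i = m) || decide (l = m)) := by
  have : 2 ^ i + 2 ^ l = 2 ^ i ||| 2 ^ l := by
    rcases Nat.lt_or_gt_of_ne h with h | h
    · exact pow_add_eq_or h
    · rw [add_comm, pow_add_eq_or h, Nat.or_comm]
  rw [this, Nat.testBit_or, Nat.testBit_two_pow, Nat.testBit_two_pow]

theorem DD_shadow {t d : ℕ} (hd : d ∈ DD t) (e : ℕ)
    (he : ∀ i : ℕ, e.testBit i = true → d.testBit i = true) : e ∈ DD t := by
  rcases mem_DD.1 hd with rfl | ⟨i, hi, rfl⟩ | ⟨i, hi, l, hl, h1, h2, h3, rfl⟩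
  · have : e = 0 := by
      apply Nat.eq_of_testBit_eq
      intro j
      by_contra hj
      have : e.testBit j = true := by
        simpa using hj
      have := he j this
      simp at this
    rw [this]; exact hd
  · by_cases hb : e.testBit i = true
    · have : e = 2 ^ i := by
        apply Nat.eq_of_testBit_eq
        intro j
        rw [Nat.testBit_two_pow]
        by_cases hij : i = j
        · subst hij; simp [hb]
        · rw [decide_eq_false hij]
          by_contra hj
          have hj' : e.testBit j = true := by simpa using hj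
          have := he j hj'
          rw [Nat.testBit_two_pow] at this
          exact hij (of_decide_eq_true this)
      rw [this]; exact hd
    · have : e = 0 := by
        apply Nat.eq_of_testBit_eq
        intro j
        rw [Nat.zero_testBit]
        by_contra hj
        have hj' : e.testBit j = true := by simpa using hj
        have := he j hj'
        rw [Nat.testBit_two_pow] at this
        have hij := of_decide_eq_true this
        subst hij
        exact hb hj'
      rw [this]; exact mem_DD.2 (Or.inl rfl)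
  · -- two bits
    have hbits : ∀ j, e.testBit j = true → i = j ∨ l = j := by
      intro j hj
      have := he j hj
      rw [testBit_two h1] at this
      simpa using this
    have hext : ∀ e' : ℕ, (∀ j, e'.testBit j = true ↔ e.testBit j = true) → e = e' := by
      intro e' h
      apply Nat.eq_of_testBit_eq
      intro j
      have := h j
      rcases hb : e.testBit j <;> rcases hb' : e'.testBit j <;> simp_all
    by_cases hbi : e.testBit i = true <;> by_cases hbl : e.testBit l = true
    · have : e = 2 ^ i + 2 ^ l := by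
        apply hext
        intro j
        rw [testBit_two h1]
        constructor
        · intro h
          have : i = j ∨ l = j := by simpa using h
          rcases this with rfl | rfl
          · exact hbi
          · exact hbl
        · intro h
          have := hbits j h
          simpa using this
      rw [this]; exact hd
    · have : e = 2 ^ i := by
        apply hext
        intro j
        rw [Nat.testBit_two_pow]
        constructor
        · intro h
          have := of_decide_eq_true h
          subst this; exact hbi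
        · intro h
          rcases hbits j h with rfl | rfl
          · simp
          · exact absurd h hbl
      rw [this]; exact mem_DD.2 (Or.inr (Or.inl ⟨i, hi, rfl⟩))
    · have : e = 2 ^ l := by
        apply hext
        intro j
        rw [Nat.testBit_two_pow]
        constructor
        · intro h
          have := of_decide_eq_true h
          subst this; exact hbl
        · intro h
          rcases hbits j h with rfl | rfl
          · exact absurd h hbi
          · simp
      rw [this]; exact mem_DD.2 (Or.inr (Or.inl ⟨l, hl, rfl⟩))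
    · have : e = 0 := by
        apply hext
        intro j
        rw [Nat.zero_testBit]
        constructor
        · intro h; exact absurd h (by simp)
        · intro h
          rcases hbits j h with rfl | rfl
          · exact absurd h hbi
          · exact absurd h hbl
      rw [this]; exact mem_DD.2 (Or.inl rfl)

end Pool.Agent.Q315.AffInv
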