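import Pool.Agent.Q315.AffInv2

set_option autoImplicit false

namespace Pool.Agent.Q315.AffInv

open Finset

set_option linter.unusedSectionVars false

variable {F : Type*} [Field F] [Finite F] [Algebra (ZMod 2) F]

/-- the function is a combination of the monomials with exponent in `D` -/
def InSpan (D : Finset ℕ) (φ : F → F) : Prop :=
  ∃ c : ℕ → F, ∀ x, φ x = ∑ d ∈ D, c d * x ^ d

theorem InSpan.zero (D : Finset ℕ) : InSpan D (fun _ : F => 0) :=
  ⟨fun _ => 0, fun x => by simp⟩

theorem InSpan.add {D : Finset ℕ} {φ ψ : F → F} (h : InSpan D φ) (h' : InSpan D ψ) :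
    InSpan D (fun x => φ x + ψ x) := by
  obtain ⟨c, hc⟩ := h
  obtain ⟨c', hc'⟩ := h'
  refine ⟨fun d => c d + c' d, fun x => ?_⟩
  simp only [hc, hc', add_mul, Finset.sum_add_distrib]

theorem InSpan.sum {ι : Type*} {D : Finset ℕ} (s : Finset ι) (φ : ι → F → F)
    (h : ∀ i ∈ s, InSpan D (φ i)) : InSpan D (fun x => ∑ i ∈ s, φ i x) := by
  classical
  induction s using Finset.induction_on with
  | empty => simpa using InSpan.zero D
  | insert a s ha ih =>
    have h1 := h a (Finset.mem_insert_self _ _)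
    have h2 := ih (fun i hi => h i (Finset.mem_insert_of_mem hi))
    have h3 := h1.add h2
    have : (fun x => ∑ i ∈ insert a s, φ i x) = fun x => φ a x + ∑ i ∈ s, φ i x := by
      funext x
      rw [Finset.sum_insert ha]
    rw [this]
    exact h3

theorem InSpan.monomial {D : Finset ℕ} {d : ℕ} (hd : d ∈ D) (c : F) :
    InSpan D (fun x => c * x ^ d) := by
  refine ⟨fun e => if e = d then c else 0, fun x => ?_⟩
  rw [Finset.sum_eq_single d]
  · simp
  · intro b _ hb
    simp [hb]
  · intro h
    exact absurd hd h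

theorem pow_two_pow_finrank (y : F) : y ^ 2 ^ (Module.finrank (ZMod 2) F) = y := by
  have h1 : Nat.card F = 2 ^ Module.finrank (ZMod 2) F := by
    rw [Module.natCard_eq_pow_finrank (K := ZMod 2)]
    simp
  rw [← h1]
  have := Fintype.ofFinite F
  rw [Nat.card_eq_fintype_card]
  exact FiniteField.pow_card y

theorem pow_succ_mod {i : ℕ} (hi : i < Module.finrank (ZMod 2) F) (y : F) :
    y ^ 2 ^ (i + 1) = y ^ 2 ^ ((i + 1) % Module.finrank (ZMod 2) F) := by
  by_cases h : i + 1 < Module.finrank (ZMod 2) F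
  · rw [Nat.mod_eq_of_lt h]
  · have h2 : i + 1 = Module.finrank (ZMod 2) F := by omega
    rw [h2, Nat.mod_self, pow_two_pow_finrank]
    simp

theorem trace_formula (x : F) : algebraMap (ZMod 2) F (Algebra.trace (ZMod 2) F x) =
    ∑ i ∈ range (Module.finrank (ZMod 2) F), x ^ 2 ^ i := by
  have := FiniteField.algebraMap_trace_eq_sum_pow (ZMod 2) F x
  rw [this]
  simp

/-- the products `a ^ (2 ^ i) * b ^ (2 ^ l) * x ^ (2 ^ i + 2 ^ l)` -/
def mm (a b x : F) (i l : ℕ) : F := (a * x) ^ 2 ^ i * (b * x) ^ 2 ^ l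

theorem trace_cube (a b x : F) :
    algebraMap (ZMod 2) F (Algebra.trace (ZMod 2) F ((a * b ^ 2 + a ^ 2 * b) * x ^ 3)) =
      ∑ i ∈ range (Module.finrank (ZMod 2) F),
        (mm a b x i ((i + 1) % Module.finrank (ZMod 2) F) +
          mm a b x ((i + 1) % Module.finrank (ZMod 2) F) i) := by
  rw [trace_formula]
  apply Finset.sum_congr rfl
  intro i hi
  have hi' := Finset.mem_range.1 hi
  unfold mm
  rw [← pow_succ_mod hi' (b * x), ← pow_succ_mod hi' (a * x)]
  have h1 : (a * b ^ 2 + a ^ 2 * b) * x ^ 3 = (a * x) * (b * x) ^ 2 + (a * x) ^ 2 * (b * x) := by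
    ring
  rw [h1, add_pow_char_pow, mul_pow (a * x) ((b * x) ^ 2), mul_pow ((a * x) ^ 2) (b * x),
    ← pow_mul (b * x) 2, ← pow_mul (a * x) 2, pow_succ' 2 i]

theorem split_sum (t : ℕ) (ht : 3 ≤ t) (m : ℕ → ℕ → F) :
    ∑ i ∈ range t, ∑ l ∈ range t, m i l =
      ∑ i ∈ range t, (m i ((i + 1) % t) + m ((i + 1) % t) i) +
      ∑ i ∈ range t, ∑ l ∈ range t, (if (i + 1) % t = l ∨ (l + 1) % t = i then 0 else m i l) := by
  have hs : ∀ i, (i + 1) % t ∈ range t := fun i => Finset.mem_range.2 (Nat.mod_lt _ (by omega))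
  have h1 : ∑ i ∈ range t, m i ((i + 1) % t) =
      ∑ i ∈ range t, ∑ l ∈ range t, (if (i + 1) % t = l then m i l else 0) := by
    apply Finset.sum_congr rfl
    intro i _
    rw [Finset.sum_ite_eq, if_pos (hs i)]
  have h2 : ∑ i ∈ range t, m ((i + 1) % t) i =
      ∑ i ∈ range t, ∑ l ∈ range t, (if (l + 1) % t = i then m i l else 0) := by
    rw [Finset.sum_comm]
    apply Finset.sum_congr rfl
    intro i _
    rw [Finset.sum_ite_eq, if_pos (hs i)]
  rw [Finset.sum_add_distrib, h1, h2, ← Finset.sum_add_distrib, ← Finset.sum_add_distrib]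
  apply Finset.sum_congr rfl
  intro i hi
  rw [← Finset.sum_add_distrib, ← Finset.sum_add_distrib]
  apply Finset.sum_congr rfl
  intro l hl
  have hi' := Finset.mem_range.1 hi
  have hl' := Finset.mem_range.1 hl
  by_cases hA : (i + 1) % t = l <;> by_cases hB : (l + 1) % t = i
  · exfalso
    by_cases h3 : i + 1 < t
    · rw [Nat.mod_eq_of_lt h3] at hA
      subst hA
      by_cases h4 : i + 1 + 1 < t
      · rw [Nat.mod_eq_of_lt h4] at hB; omega
      · have : i + 1 + 1 = t := by omega
        rw [this, Nat.mod_self] at hB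
        omega
    · have h5 : i + 1 = t := by omega
      rw [h5, Nat.mod_self] at hA
      subst hA
      rw [Nat.mod_eq_of_lt (by omega)] at hB
      omega
  · simp [hA, hB]
  · simp [hA, hB]
  · simp [hA, hB]

theorem prod_trace_inSpan (ht : 3 ≤ Module.finrank (ZMod 2) F) (a b : F) :
    InSpan (DD (Module.finrank (ZMod 2) F)) (fun x : F =>
      algebraMap (ZMod 2) F (Algebra.trace (ZMod 2) F (a * x) * Algebra.trace (ZMod 2) F (b * x) +
        Algebra.trace (ZMod 2) F ((a * b ^ 2 + a ^ 2 * b) * x ^ 3))) := by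
  set t := Module.finrank (ZMod 2) F with htdef
  have h1 : (fun x : F =>
      algebraMap (ZMod 2) F (Algebra.trace (ZMod 2) F (a * x) * Algebra.trace (ZMod 2) F (b * x) +
        Algebra.trace (ZMod 2) F ((a * b ^ 2 + a ^ 2 * b) * x ^ 3))) =
      fun x => ∑ i ∈ range t, ∑ l ∈ range t,
        (if (i + 1) % t = l ∨ (l + 1) % t = i then 0 else mm a b x i l) := by
    funext x
    rw [map_add, map_mul, trace_cube, trace_formula, trace_formula, ← htdef, Finset.sum_mul_sum]
    have := split_sum t ht (mm a b x)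
    have h2 : ∑ i ∈ range t, ∑ l ∈ range t, (a * x) ^ 2 ^ i * (b * x) ^ 2 ^ l =
      ∑ i ∈ range t, ∑ l ∈ range t, mm a b x i l := rfl
    rw [h2, this]
    rw [add_right_comm, CharTwo.add_self_eq_zero, zero_add]
  rw [h1]
  apply InSpan.sum
  intro i hi
  apply InSpan.sum
  intro l hl
  have hi' := Finset.mem_range.1 hi
  have hl' := Finset.mem_range.1 hl
  by_cases hA : (i + 1) % t = l ∨ (l + 1) % t = i
  · simp only [if_pos hA]
    exact InSpan.zero _
  · simp only [if_neg hA]
    push Not at hA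
    by_cases hil : i = l
    · subst hil
      have h3 : (fun x : F => mm a b x i i) =
          fun x => (a ^ 2 ^ i * b ^ 2 ^ i) * x ^ (2 ^ ((i + 1) % t)) := by
        funext x
        rw [← pow_succ_mod hi' x]
        unfold mm
        rw [mul_pow, mul_pow, pow_succ 2 i, mul_two (2 ^ i), pow_add]
        ring
      rw [h3]
      apply InSpan.monomial
      exact mem_DD.2 (Or.inr (Or.inl ⟨_, Nat.mod_lt _ (by omega), rfl⟩))
    · have h3 : (fun x : F => mm a b x i l) =
          fun x => (a ^ 2 ^ i * b ^ 2 ^ l) * x ^ (2 ^ i + 2 ^ l) := by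
        funext x
        unfold mm
        rw [mul_pow, mul_pow, pow_add]
        ring
      rw [h3]
      apply InSpan.monomial
      exact mem_DD.2 (Or.inr (Or.inr ⟨i, hi', l, hl', hil, hA.1, hA.2, rfl⟩))

/-- the trace of the cube is not in the span -/
theorem trace_cube_not_inSpan (ht : 3 ≤ Module.finrank (ZMod 2) F) :
    ¬ InSpan (DD (Module.finrank (ZMod 2) F)) (fun x : F =>
      algebraMap (ZMod 2) F (Algebra.trace (ZMod 2) F (x ^ 3))) := by
  classical
  set t := Module.finrank (ZMod 2) F with htdef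
  rintro ⟨c, hc⟩
  have := Fintype.ofFinite F
  have hcard : Fintype.card F = 2 ^ t := by
    have h1 : Nat.card F = 2 ^ Module.finrank (ZMod 2) F := by
      rw [Module.natCard_eq_pow_finrank (K := ZMod 2)]
      simp
    rw [← Nat.card_eq_fintype_card, h1]
  let r : ℕ → ℕ := fun i => 2 ^ i + 2 ^ ((i + 1) % t)
  have hr : ∀ i < t, r i < 2 ^ t := by
    intro i hi
    apply two_pow_add_lt hi (Nat.mod_lt _ (by omega))
    intro h
    by_cases h3 : i + 1 < t
    · rw [Nat.mod_eq_of_lt h3] at h; omega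
    · have h5 : i + 1 = t := by omega
      rw [h5, Nat.mod_self] at h
      omega
  let p : Polynomial F := ∑ i ∈ range t, Polynomial.X ^ (r i) -
    ∑ d ∈ DD t, Polynomial.C (c d) * Polynomial.X ^ d
  have hp0 : p = 0 := by
    apply Polynomial.eq_zero_of_natDegree_lt_card_of_eval_eq_zero' p Finset.univ
    · intro x _
      have h1 := hc x
      beta_reduce at h1
      rw [trace_formula, ← htdef] at h1
      simp only [p, Polynomial.eval_sub, Polynomial.eval_finsetSum, Polynomial.eval_pow,
        Polynomial.eval_X, Polynomial.eval_mul, Polynomial.eval_C]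
      rw [← h1, sub_eq_zero]
      apply Finset.sum_congr rfl
      intro i hi
      have hi' := Finset.mem_range.1 hi
      have h2 : x ^ 2 ^ (i + 1) = x ^ 2 ^ ((i + 1) % t) := pow_succ_mod (F := F) hi' x
      simp only [r]
      rw [pow_add, ← h2, ← pow_mul, ← pow_add]
      congr 1
      rw [pow_succ]
      ring
    · rw [Finset.card_univ, hcard]
      have hpos : 0 < 2 ^ t := by positivity
      apply lt_of_le_of_lt (Polynomial.natDegree_sub_le _ _)
      rw [max_lt_iff]
      constructor
      · refine lt_of_le_of_lt (Polynomial.natDegree_sum_le _ _) ?_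
        rw [Finset.fold_max_lt]
        refine ⟨hpos, fun i hi => ?_⟩
        simp only [Function.comp]
        rw [Polynomial.natDegree_X_pow]
        exact hr i (Finset.mem_range.1 hi)
      · refine lt_of_le_of_lt (Polynomial.natDegree_sum_le _ _) ?_
        rw [Finset.fold_max_lt]
        refine ⟨hpos, fun d hd => ?_⟩
        simp only [Function.comp]
        exact lt_of_le_of_lt (Polynomial.natDegree_C_mul_X_pow_le _ _) (DD_lt hd).1
  have hcoeff : p.coeff 3 = 1 := by
    simp only [p, Polynomial.coeff_sub, Polynomial.finsetSum_coeff, Polynomial.coeff_X_pow,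
      Polynomial.coeff_C_mul]
    have h1 : ∑ i ∈ range t, (if 3 = r i then (1 : F) else 0) = 1 := by
      rw [Finset.sum_eq_single 0]
      · have : 3 = r 0 := by
          simp only [r]
          rw [Nat.mod_eq_of_lt (show 0 + 1 < t by omega)]
          norm_num
        rw [if_pos this]
      · intro i hi h0
        rw [if_neg]
        intro h3
        rcases pow_add_pow_eq_three h3.symm with ⟨h4, _⟩ | ⟨h4, h5⟩
        · exact h0 h4
        · subst h4
          rw [Nat.mod_eq_of_lt (show 1 + 1 < t by omega)] at h5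
          omega
      · intro h
        exact absurd (Finset.mem_range.2 (by omega)) h
    have h2 : ∑ d ∈ DD t, c d * (if 3 = d then (1 : F) else 0) = 0 := by
      apply Finset.sum_eq_zero
      intro d hd
      rw [if_neg, mul_zero]
      rintro rfl
      exact three_not_mem ht hd
    rw [h1, h2, sub_zero]
  rw [hp0] at hcoeff
  simp at hcoeff

theorem main_agree {k : ℕ} (hk : k + 3 ≤ Module.finrank (ZMod 2) F) (α : Fin k → F) :
    ∃ g : F → ZMod 2,
      InSpan (DD (Module.finrank (ZMod 2) F)) (fun x => algebraMap (ZMod 2) F (g x)) ∧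
      ∀ i, g (α i) = Algebra.trace (ZMod 2) F (α i ^ 3) := by
  obtain ⟨a, a', ha, ha', hne, h1, h2⟩ := exists_orth hk α
  obtain ⟨b, b', hb⟩ := surj ha ha' hne
  refine ⟨fun x => (Algebra.trace (ZMod 2) F (a * x) * Algebra.trace (ZMod 2) F (b * x) +
    Algebra.trace (ZMod 2) F ((a * b ^ 2 + a ^ 2 * b) * x ^ 3)) +
    (Algebra.trace (ZMod 2) F (a' * x) * Algebra.trace (ZMod 2) F (b' * x) +
    Algebra.trace (ZMod 2) F ((a' * b' ^ 2 + a' ^ 2 * b') * x ^ 3)), ?_, ?_⟩
  · have := (prod_trace_inSpan (F := F) (by omega) a b).add (prod_trace_inSpan (by omega) a' b')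
    simpa only [map_add] using this
  · intro i
    simp only [h1 i, h2 i, zero_mul, zero_add]
    rw [← map_add, ← add_mul, hb, one_mul]

theorem main_char {k : ℕ} (hk : k + 3 ≤ Module.finrank (ZMod 2) F) :
    ¬ ∃ C : Set ((Fin k → F) × Set (Fin k → ZMod 2)),
      ∀ f : F → ZMod 2,
        (InSpan (DD (Module.finrank (ZMod 2) F)) (fun x => algebraMap (ZMod 2) F (f x)) ↔
          ∀ p ∈ C, (fun i => f (p.1 i)) ∈ p.2) := by
  rintro ⟨C, hC⟩
  apply trace_cube_not_inSpan (F := F) (by omega)
  rw [hC (fun x => Algebra.trace (ZMod 2) F (x ^ 3))]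
  intro p hp
  obtain ⟨g, hg, hg'⟩ := main_agree hk p.1
  have := (hC g).1 hg p hp
  have h2 : (fun i => g (p.1 i)) = fun i => Algebra.trace (ZMod 2) F (p.1 i ^ 3) := by
    funext i; exact hg' i
  rw [h2] at this
  exact this

end Pool.Agent.Q315.AffInv
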