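import Pool.Agent.Y816.PD.UniL

/-!
# Almost prime and prime values of several forms at integers with restricted digits

Definitions and one theorem for the hand-ins `RestrictedDigits`. The theorem is a form of `Pool.Agent.Y816.PD.uni_fun` of the starting
library for products of several natural valued functions.
-/

set_option autoImplicit false

namespace Pool.Agent.Q315.RD

open Filter Finset

/-- The `i`-th digit of `t` in base `g` (counted from the right, beginning with `0`) belongs to `A i` for all `i < K`. -/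
def HasDigits (g K : ℕ) (A : ℕ → Finset ℕ) (t : ℕ) : Prop := ∀ i < K, t / g ^ i % g ∈ A i

/-- The number of the choices of `K` digits in the sets `A i`. -/
def choices (K : ℕ) (A : ℕ → Finset ℕ) : ℕ := ∏ i ∈ range K, (A i).card

/-- `A` gives for every place `i < K` a set of digits in base `g`, and the number of the choices of the digits is at least
`exp (- c K) g ^ K`. -/
def Rich (c : ℝ) (g K : ℕ) (A : ℕ → Finset ℕ) : Prop :=
  (∀ i < K, A i ⊆ range g) ∧ (g : ℝ) ^ K ≤ Real.exp (c * K) * choices K A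

/-- `m` has at most `r` prime factors (counted with multiplicity), and all of them are larger than `y ^ (1 / r)`. -/
def AlmostPrime (y r m : ℕ) : Prop :=
  (∀ p : ℕ, p.Prime → p ∣ m → y < p ^ r) ∧ m.primeFactorsList.length ≤ r

open Classical in
/-- The number of the `t < g ^ K` with the digits `A i` which have the property `P`. -/
noncomputable def count (g K : ℕ) (A : ℕ → Finset ℕ) (P : ℕ → Prop) : ℕ :=
  ((range (g ^ K)).filter fun t => HasDigits g K A t ∧ P t).card

open Classical in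
/-- The number of the residue classes `t` modulo `p` with the property `B`. -/
noncomputable def classes (p : ℕ) (B : ℕ → Prop) : ℕ := ((range p).filter B).card

/-- The product of `1 - ν (p) / p` over the primes `p ≤ y`, where `ν (p)` is the number of the `t < p` such that `p` divides one of
the values `f i t`. -/
noncomputable def density {k : ℕ} (f : Fin k → ℕ → ℕ) (y : ℕ) : ℝ :=
  ∏ p ∈ (Icc 1 y).filter Nat.Prime, (1 - (classes p fun t => ∃ i, p ∣ f i t) / (p : ℝ))

lemma ND_le_count {g K : ℕ} {A : ℕ → Finset ℕ} {S : Set ℕ} {P : ℕ → Prop} (h : ∀ n < g ^ K, n ∈ S → P n) :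
    Pool.Agent.Y816.PD.ND g K A S ≤ count g K A P := by
  classical
  unfold Pool.Agent.Y816.PD.ND count
  apply card_le_card
  intro n hn
  have h1 := mem_filter.1 hn
  exact mem_filter.2 ⟨h1.1, h1.2.1, h n (mem_range.1 h1.1) h1.2.2⟩

lemma count_le_ND {g K : ℕ} {A : ℕ → Finset ℕ} {S : Set ℕ} {P : ℕ → Prop} (h : ∀ n < g ^ K, P n → n ∈ S) :
    count g K A P ≤ Pool.Agent.Y816.PD.ND g K A S := by
  classical
  unfold Pool.Agent.Y816.PD.ND count
  apply card_le_card
  intro n hn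
  have h1 := mem_filter.1 hn
  exact mem_filter.2 ⟨h1.1, h1.2.1, h n (mem_range.1 h1.1) h1.2.2⟩

open Pool.Agent.Y816.PD in
lemma choices_eq (K : ℕ) (A : ℕ → Finset ℕ) : (choices K A : ℝ) = NA K A := by
  unfold choices NA
  push_cast
  rfl

lemma dvd_prod_cast {k : ℕ} (f : Fin k → ℕ → ℕ) {p : ℕ} (hp : p.Prime) (t : ℕ) :
    (p : ℤ) ∣ ∏ i, (f i t : ℤ) ↔ ∃ i, p ∣ f i t := by
  rw [← Nat.cast_prod, Int.natCast_dvd_natCast, hp.prime.dvd_finsetProd_iff]
  simp

open Pool.Agent.Y816.PD in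
lemma density_eq {k : ℕ} (f : Fin k → ℕ → ℕ) (y : ℕ) : WG (fun t => ∏ i, (f i t : ℤ)) y = density f y := by
  classical
  unfold WG density
  apply prod_congr rfl
  intro p hp
  have hp2 := (mem_filter.1 hp).2
  congr 3
  unfold classes
  apply congrArg
  ext t
  simp only [mem_filter, dvd_prod_cast f hp2]

lemma length_prod {k : ℕ} (v : Fin k → ℕ) (h : ∀ i, v i ≠ 0) (i : Fin k) :
    (v i).primeFactorsList.length ≤ (∏ i, v i).primeFactorsList.length := by
  classical
  obtain ⟨w, hw⟩ : v i ∣ ∏ i, v i := dvd_prod_of_mem v (mem_univ i)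
  have h0 : ∏ i, v i ≠ 0 := prod_ne_zero_iff.2 fun i _ => h i
  have hw0 : w ≠ 0 := by
    intro h1
    rw [h1, mul_zero] at hw
    exact h0 hw
  rw [hw, (Nat.perm_primeFactorsList_mul (h i) hw0).length_eq, List.length_append]
  omega

/-- **Several forms at integers with restricted digits.** -/
theorem forms (κ0 D : ℕ) (hκ0 : 1 ≤ κ0) :
    ∃ c : ℝ, 0 < c ∧ ∃ r₀ : ℕ, 2 ≤ r₀ ∧ ∀ r : ℕ, r₀ ≤ r → ∀ g : ℕ, 2 ≤ g → ∃ κ C : ℝ, 0 < κ ∧ 0 < C ∧
      ∀ᶠ K : ℕ in atTop, ∀ (k : ℕ) (f : Fin k → ℕ → ℕ),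
        (∃ P : Polynomial ℤ, P.natDegree ≤ κ0 ∧ ∀ t : ℕ, P.eval (t : ℤ) = ∏ i, (f i t : ℤ)) →
        (∀ p : ℕ, p.Prime → ∃ t : ℕ, ∀ i, ¬ p ∣ f i t) →
        (∀ t < g ^ K, ∀ i, t ≤ f i t) → (∀ t < g ^ K, ∏ i, f i t ≤ g ^ (D * K)) →
        ∀ A : ℕ → Finset ℕ, Rich c g K A →
          ((∃ d ∈ A 0, ∀ i, (f i d).Coprime g) →
            κ * density f (g ^ K) * choices K A ≤ count g K A fun t => ∀ i, AlmostPrime (g ^ K) r (f i t)) ∧
          (count g K A (fun t => ∀ i, (f i t).Prime) : ℝ) ≤ C * density f (g ^ K) * choices K A := by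
  classical
  obtain ⟨c, hc, r0, hr0, h⟩ := Pool.Agent.Y816.PD.uni_fun κ0 D hκ0
  refine ⟨c, hc, r0, hr0, fun r hr g hg => ?_⟩
  obtain ⟨κ, C, hκ, hC, h1⟩ := h r hr g hg
  refine ⟨κ, C, hκ, hC, ?_⟩
  filter_upwards [h1, eventually_ge_atTop (r + 1)] with K hK hK1
  intro k f hP hadm hpos hsz A ⟨hA, hprod⟩
  have h2r : 2 ^ r < g ^ K :=
    (Nat.pow_le_pow_left hg r).trans_lt (Nat.pow_lt_pow_right (by omega) (by omega))
  have hnat : ∀ t : ℕ, (∏ i, (f i t : ℤ)).natAbs = ∏ i, f i t := by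
    intro t
    rw [← Nat.cast_prod, Int.natAbs_natCast]
  obtain ⟨hlow, hup⟩ := hK (fun t => ∏ i, (f i t : ℤ)) hP
    (fun p hp => by
      obtain ⟨t, ht⟩ := hadm p hp
      refine ⟨t, fun h2 => ?_⟩
      obtain ⟨i, hi⟩ := (dvd_prod_cast f hp t).1 h2
      exact ht i hi)
    (fun t ht => by rw [hnat]; exact hsz t ht) A hA (by rw [← choices_eq]; exact hprod)
  rw [density_eq, ← choices_eq] at hlow hup
  constructor
  · rintro ⟨d, hd, hd1⟩
    have h3 := hlow ⟨d, hd, by
      rw [hnat]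
      exact Nat.Coprime.prod_left fun i _ => hd1 i⟩
    rw [mul_right_comm]
    refine h3.trans (Nat.cast_le.2 ?_)
    refine ND_le_count fun t hn1 hn i => ?_
    obtain ⟨hn3, hn4⟩ := hn
    simp only at hn3 hn4
    rw [hnat] at hn4
    have hne : ∀ i, f i t ≠ 0 := by
      intro j hj
      have h4 := hn3 2 Nat.prime_two ((dvd_prod_cast f Nat.prime_two t).2 ⟨j, by rw [hj]; exact dvd_zero 2⟩)
      omega
    exact ⟨fun p hp hpd => hn3 p hp ((dvd_prod_cast f hp t).2 ⟨i, hpd⟩),
      (length_prod (fun i => f i t) hne i).trans hn4⟩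
  · rw [mul_right_comm]
    refine le_trans (Nat.cast_le.2 ?_) hup
    refine count_le_ND fun t hn1 hn => ?_
    intro p hp hpn
    obtain ⟨i, hi⟩ := (dvd_prod_cast f hp t).1 hpn
    have h5 : p = f i t := (Nat.prime_dvd_prime_iff_eq hp (hn i)).1 hi
    exact lt_of_le_of_lt (h5 ▸ hpos t hn1 i) (lt_self_pow₀ hp.one_lt (by omega))

/-- The product of `1 - ν (p) / p` over the primes `p ≤ y`, where `ν (p)` is the number of the zeros of `G` modulo `p` (`G` is a
polynomial with integer coefficients). -/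
noncomputable def rootDensity (G : ℕ → ℤ) (y : ℕ) : ℝ :=
  ∏ p ∈ (Icc 1 y).filter Nat.Prime, (1 - (classes p fun n => (p : ℤ) ∣ G n) / (p : ℝ))

lemma classes_shift (p N : ℕ) (B : ℕ → Prop) (h : ∀ n, B (n + p) ↔ B n) :
    (classes p fun t => B (N + t)) = classes p B := by
  classical
  have h1 := Nat.filter_Ico_card_eq_of_periodic N p B (fun n => propext (h n))
  have h2 := Nat.filter_Ico_card_eq_of_periodic 0 p B (fun n => propext (h n))
  have h3 : classes p B = (filter B (Ico 0 (0 + p))).card := by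
    unfold classes
    congr 1
    ext t
    simp
  have h4 : (classes p fun t => B (N + t)) = (filter B (Ico N (N + p))).card := by
    unfold classes
    apply card_nbij (fun t => N + t)
    · intro t ht
      have h5 := mem_filter.1 (mem_coe.1 ht)
      have h6 := mem_range.1 h5.1
      exact mem_coe.2 (mem_filter.2 ⟨mem_Ico.2 ⟨Nat.le_add_right _ _, Nat.add_lt_add_left h6 N⟩, h5.2⟩)
    · intro a _ b _ hab
      exact Nat.add_left_cancel hab
    · intro n hn
      have h5 := mem_filter.1 (mem_coe.1 hn)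
      have h6 := mem_Ico.1 h5.1
      refine ⟨n - N, mem_coe.2 (mem_filter.2 ⟨mem_range.2 (by omega), ?_⟩), by simp only; omega⟩
      rw [show N + (n - N) = n by omega]
      exact h5.2
  rw [h3, h4, h1, h2]

lemma dvd_eval_iff (F : Polynomial ℤ) {p : ℕ} {a b : ℤ} (h : (p : ℤ) ∣ a - b) : (p : ℤ) ∣ F.eval a ↔ (p : ℤ) ∣ F.eval b := by
  have h1 : (p : ℤ) ∣ F.eval a - F.eval b := h.trans (Polynomial.sub_dvd_eval_sub a b F)
  exact (Int.dvd_iff_dvd_of_dvd_sub h1)

/-- a bound for a polynomial -/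
lemma eval_bound (P : Polynomial ℤ) : ∃ B : ℕ, ∀ n : ℕ, (P.eval (n : ℤ)).natAbs ≤ B * (n + 1) ^ P.natDegree := by
  refine ⟨∑ i ∈ range (P.natDegree + 1), (P.coeff i).natAbs, fun n => ?_⟩
  rw [Polynomial.eval_eq_sum_range]
  refine (Int.natAbs_sum_le _ _).trans ?_
  rw [sum_mul]
  apply sum_le_sum
  intro i hi
  rw [Int.natAbs_mul, Int.natAbs_pow, Int.natAbs_natCast]
  refine Nat.mul_le_mul_left _ ((Nat.pow_le_pow_left (Nat.le_succ n) i).trans ?_)
  exact Nat.pow_le_pow_right (Nat.succ_pos n) (Nat.lt_succ_iff.1 (mem_range.1 hi))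

/-- **Several fixed polynomials at shifts of integers with restricted digits.** -/
theorem shifted {k : ℕ} (F : Fin k → Polynomial ℤ) (f : Fin k → ℕ → ℕ) (n₀ : ℕ)
    (hf : ∀ i n, n₀ ≤ n → (F i).eval (n : ℤ) = f i n) (hpos : ∀ i n, n₀ ≤ n → n ≤ f i n)
    (hadm : ∀ p : ℕ, p.Prime → ∃ n : ℕ, ∀ i, ¬ (p : ℤ) ∣ (F i).eval (n : ℤ)) (E : ℕ) :
    ∃ c : ℝ, 0 < c ∧ ∃ r₀ : ℕ, 2 ≤ r₀ ∧ ∀ r : ℕ, r₀ ≤ r → ∀ g : ℕ, 2 ≤ g → ∃ κ C : ℝ, 0 < κ ∧ 0 < C ∧
      ∀ᶠ K : ℕ in atTop, ∀ N : ℕ, n₀ ≤ N → N ≤ g ^ (E * K) → ∀ A : ℕ → Finset ℕ, Rich c g K A →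
        ((∃ d ∈ A 0, ∀ i, (f i (N + d)).Coprime g) →
          κ * rootDensity (fun n => ∏ i, (F i).eval (n : ℤ)) (g ^ K) * choices K A ≤
            count g K A fun t => ∀ i, AlmostPrime (g ^ K) r (f i (N + t))) ∧
        (count g K A (fun t => ∀ i, (f i (N + t)).Prime) : ℝ) ≤
          C * rootDensity (fun n => ∏ i, (F i).eval (n : ℤ)) (g ^ K) * choices K A := by
  classical
  obtain ⟨B, hB⟩ := eval_bound (∏ i, F i)
  obtain ⟨c, hc, r0, hr0, h⟩ := forms ((∏ i, F i).natDegree + 1) (1 + (E + 2) * (∏ i, F i).natDegree) (by omega)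
  refine ⟨c, hc, r0, hr0, fun r hr g hg => ?_⟩
  obtain ⟨κ, C, hκ, hC, h1⟩ := h r hr g hg
  refine ⟨κ, C, hκ, hC, ?_⟩
  filter_upwards [h1, eventually_ge_atTop (B + 1)] with K hK hKB
  intro N hN1 hN A hA
  have hprodN : ∀ t : ℕ, (∏ i, F i).eval ((N : ℤ) + t) = ∏ i, (f i (N + t) : ℤ) := by
    intro t
    rw [Polynomial.eval_prod]
    apply prod_congr rfl
    intro i _
    rw [← hf i (N + t) (by omega)]
    push_cast
    rfl
  have hg1 : 1 ≤ g := by omega
  obtain ⟨hlow, hup⟩ := hK k (fun i t => f i (N + t))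
    ⟨(∏ i, F i).comp (Polynomial.X + Polynomial.C (N : ℤ)), by
      rw [Polynomial.natDegree_comp, Polynomial.natDegree_X_add_C, mul_one]
      omega, fun t => by
      rw [Polynomial.eval_comp, Polynomial.eval_add, Polynomial.eval_X, Polynomial.eval_C, add_comm, hprodN]⟩
    (fun p hp => by
      obtain ⟨n, hn⟩ := hadm p hp
      refine ⟨n + (p - 1) * N, fun i hi => hn i ?_⟩
      have h2 : ((p : ℕ) : ℤ) ∣ (f i (N + (n + (p - 1) * N)) : ℤ) := Int.natCast_dvd_natCast.2 hi
      rw [← hf i _ (by omega)] at h2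
      refine (dvd_eval_iff (F i) ?_).1 h2
      refine ⟨N, ?_⟩
      push_cast [Nat.cast_sub hp.one_lt.le]
      ring)
    (fun t _ i => by have := hpos i (N + t) (by omega); omega)
    (fun t ht => by
      have h2 : ((∏ i, f i (N + t) : ℕ) : ℤ) = (∏ i, F i).eval ((N + t : ℕ) : ℤ) := by
        push_cast
        rw [hprodN]
      have h3 : ∏ i, f i (N + t) = ((∏ i, F i).eval ((N + t : ℕ) : ℤ)).natAbs := by
        rw [← h2, Int.natAbs_natCast]
      rw [h3]
      have h5 : N + t + 1 ≤ g ^ ((E + 2) * K) := by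
        calc N + t + 1 ≤ g ^ (E * K) + g ^ K := by omega
          _ ≤ g ^ ((E + 1) * K) + g ^ ((E + 1) * K) := by
              apply Nat.add_le_add <;> exact Nat.pow_le_pow_right hg1 (by nlinarith)
          _ = 2 * g ^ ((E + 1) * K) := by ring
          _ ≤ g ^ K * g ^ ((E + 1) * K) := by
              apply Nat.mul_le_mul_right
              calc 2 ≤ g := hg
                _ ≤ g ^ K := Nat.le_self_pow (by omega) g
          _ = g ^ ((E + 2) * K) := by rw [← pow_add]; congr 1; ring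
      have hBK : B ≤ g ^ K := by
        calc B ≤ K := by omega
          _ ≤ 2 ^ K := (Nat.lt_two_pow_self).le
          _ ≤ g ^ K := Nat.pow_le_pow_left hg K
      calc _ ≤ B * (N + t + 1) ^ (∏ i, F i).natDegree := hB (N + t)
        _ ≤ g ^ K * (g ^ ((E + 2) * K)) ^ (∏ i, F i).natDegree :=
            Nat.mul_le_mul hBK (Nat.pow_le_pow_left h5 _)
        _ = g ^ ((1 + (E + 2) * (∏ i, F i).natDegree) * K) := by
            rw [← pow_mul, ← pow_add]; congr 1; ring) A hA
  have hden : density (fun i t => f i (N + t)) (g ^ K) = rootDensity (fun n => ∏ i, (F i).eval (n : ℤ)) (g ^ K) := by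
    unfold density rootDensity
    apply prod_congr rfl
    intro p hp
    have hp2 := (mem_filter.1 hp).2
    congr 3
    rw [← classes_shift p N (fun n => (p : ℤ) ∣ ∏ i, (F i).eval (n : ℤ))]
    · unfold classes
      apply congrArg
      ext t
      simp only [mem_filter]
      refine and_congr_right fun _ => ?_
      rw [← dvd_prod_cast (fun i t => f i (N + t)) hp2, ← hprodN, Polynomial.eval_prod]
      push_cast
      rfl
    · intro n
      rw [← Polynomial.eval_prod, ← Polynomial.eval_prod]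
      refine dvd_eval_iff _ ⟨1, ?_⟩
      push_cast
      ring
  rw [hden] at hlow hup
  exact ⟨hlow, hup⟩

end Pool.Agent.Q315.RD
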