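import Pool.Agent.Q315.RD

/-!
# Integer valued forms at integers with restricted digits

A variant of `Pool.Agent.Q315.RD.forms` for forms with parameters and integer values.
-/

set_option autoImplicit false

namespace Pool.Agent.Q315.RD

open Filter Finset

lemma count_mono {g K : ℕ} {A : ℕ → Finset ℕ} {P Q : ℕ → Prop} (h : ∀ t < g ^ K, P t → Q t) :
    count g K A P ≤ count g K A Q := by
  classical
  unfold count
  apply card_le_card
  intro n hn
  have h1 := mem_filter.1 hn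
  exact mem_filter.2 ⟨h1.1, h1.2.1, h n (mem_range.1 h1.1) h1.2.2⟩

lemma dvd_prodZ {k : ℕ} (F : Fin k → ℕ → ℤ) {p : ℕ} (hp : p.Prime) (t : ℕ) :
    (p : ℤ) ∣ ∏ i, F i t ↔ ∃ i, (p : ℤ) ∣ F i t := by
  rw [(Nat.prime_iff_prime_int.1 hp).dvd_finsetProd_iff]
  simp

open Pool.Agent.Y816.PD in
lemma rootDensity_eq (G : ℕ → ℤ) (y : ℕ) : WG G y = rootDensity G y := by
  classical
  unfold WG rootDensity
  apply prod_congr rfl
  intro p _
  congr 3
  unfold classes
  apply congrArg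
  ext t
  simp only [mem_filter]

lemma classes_zmod (p : ℕ) [Fact p.Prime] (B : ℕ → Prop) (Q : ZMod p → Prop) [DecidablePred Q]
    (h : ∀ n : ℕ, B n ↔ Q (n : ZMod p)) : classes p B = (univ.filter Q).card := by
  classical
  unfold classes
  apply card_nbij' (fun n : ℕ => (n : ZMod p)) ZMod.val
  · intro n hn
    simp only [coe_filter, mem_range, Set.mem_ofPred_eq] at hn
    exact mem_coe.2 (mem_filter.2 ⟨mem_univ _, (h n).1 hn.2⟩)
  · intro x hx
    have h4 := mem_filter.1 (mem_coe.1 hx)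
    simp only [coe_filter, mem_range, Set.mem_ofPred_eq]
    exact ⟨ZMod.val_lt x, (h _).2 (by rw [ZMod.natCast_zmod_val]; exact h4.2)⟩
  · intro n hn
    simp only [coe_filter, mem_range, Set.mem_ofPred_eq] at hn
    exact ZMod.val_cast_of_lt hn.1
  · intro x _
    exact ZMod.natCast_zmod_val x

lemma classes_all {p : ℕ} {B : ℕ → Prop} (h : ∀ t, B t) : classes p B = p := by
  classical
  unfold classes
  rw [filter_true_of_mem (fun t _ => h t), card_range]

/-- the density does not change under shifts -/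
lemma rootDensity_shift (P : Polynomial ℤ) (N y : ℕ) :
    rootDensity (fun t => P.eval ((N : ℤ) + t)) y = rootDensity (fun n => P.eval (n : ℤ)) y := by
  unfold rootDensity
  apply prod_congr rfl
  intro p _
  congr 3
  rw [← classes_shift p N (fun n => (p : ℤ) ∣ P.eval (n : ℤ))]
  · simp only [Nat.cast_add]
  · intro n
    refine dvd_eval_iff _ ⟨1, ?_⟩
    push_cast
    ring

/-- **Several integer valued forms at integers with restricted digits.** -/
theorem formsZ (κ0 D : ℕ) (hκ0 : 1 ≤ κ0) :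
    ∃ c : ℝ, 0 < c ∧ ∃ r₀ : ℕ, 2 ≤ r₀ ∧ ∀ r : ℕ, r₀ ≤ r → ∀ g : ℕ, 2 ≤ g → ∃ κ C : ℝ, 0 < κ ∧ 0 < C ∧
      ∀ᶠ K : ℕ in atTop, ∀ (k : ℕ) (F : Fin k → ℕ → ℤ),
        (∃ P : Polynomial ℤ, P.natDegree ≤ κ0 ∧ ∀ t : ℕ, P.eval (t : ℤ) = ∏ i, F i t) →
        (∀ p : ℕ, p.Prime → ∃ t : ℕ, ¬ (p : ℤ) ∣ ∏ i, F i t) →
        (∀ t < g ^ K, ∀ i, t ≤ (F i t).natAbs) → (∀ t < g ^ K, ∏ i, (F i t).natAbs ≤ g ^ (D * K)) →
        ∀ A : ℕ → Finset ℕ, Rich c g K A →
          ((∃ d ∈ A 0, ∀ i, (F i d).natAbs.Coprime g) →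
            κ * rootDensity (fun t => ∏ i, F i t) (g ^ K) * choices K A ≤
              count g K A fun t => ∀ i, AlmostPrime (g ^ K) r (F i t).natAbs) ∧
          (count g K A (fun t => ∀ i, (F i t).natAbs.Prime) : ℝ) ≤
            C * rootDensity (fun t => ∏ i, F i t) (g ^ K) * choices K A := by
  classical
  obtain ⟨c, hc, r0, hr0, h⟩ := Pool.Agent.Y816.PD.uni_fun κ0 D hκ0
  refine ⟨c, hc, r0, hr0, fun r hr g hg => ?_⟩
  obtain ⟨κ, C, hκ, hC, h1⟩ := h r hr g hg
  refine ⟨κ, C, hκ, hC, ?_⟩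
  filter_upwards [h1, eventually_ge_atTop (r + 1)] with K hK hK1
  intro k F hP hadm hpos hsz A ⟨hA, hprod⟩
  have h2r : 2 ^ r < g ^ K :=
    (Nat.pow_le_pow_left hg r).trans_lt (Nat.pow_lt_pow_right (by omega) (by omega))
  have hnat : ∀ t : ℕ, (∏ i, F i t).natAbs = ∏ i, (F i t).natAbs := fun t => map_prod Int.natAbsHom _ _
  obtain ⟨hlow, hup⟩ := hK (fun t => ∏ i, F i t) hP hadm
    (fun t ht => by rw [hnat]; exact hsz t ht) A hA (by rw [← choices_eq]; exact hprod)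
  rw [rootDensity_eq, ← choices_eq] at hlow hup
  constructor
  · rintro ⟨d, hd, hd1⟩
    have h3 := hlow ⟨d, hd, by
      rw [hnat]
      exact Nat.Coprime.prod_left fun i _ => hd1 i⟩
    rw [mul_right_comm]
    refine h3.trans (Nat.cast_le.2 ?_)
    refine ND_le_count fun t hn1 hn i => ?_
    obtain ⟨hn3, hn4⟩ := hn
    simp only at hn3 hn4
    rw [hnat] at hn4
    have hne : ∀ i, (F i t).natAbs ≠ 0 := by
      intro j hj
      have h4 := hn3 2 Nat.prime_two ((dvd_prodZ F Nat.prime_two t).2 ⟨j, by rw [Int.natAbs_eq_zero.1 hj]; exact dvd_zero _⟩)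
      omega
    exact ⟨fun p hp hpd => hn3 p hp ((dvd_prodZ F hp t).2 ⟨i, Int.natCast_dvd.2 hpd⟩),
      (length_prod (fun i => (F i t).natAbs) hne i).trans hn4⟩
  · rw [mul_right_comm]
    refine le_trans (Nat.cast_le.2 ?_) hup
    refine count_le_ND fun t hn1 hn => ?_
    intro p hp hpn
    obtain ⟨i, hi⟩ := (dvd_prodZ F hp t).1 hpn
    have h5 : p = (F i t).natAbs := (Nat.prime_dvd_prime_iff_eq hp (hn i)).1 (Int.natCast_dvd.1 hi)
    exact lt_of_le_of_lt (h5 ▸ hpos t hn1 i) (lt_self_pow₀ hp.one_lt (by omega))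

end Pool.Agent.Q315.RD
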